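import Mathlib

/-!
The pair `f = exp (-e^z)`, `g = exp (-e^{-z})` satisfies the conditions `(Z_0), (Z_1), (Z_2), (Z_3)`,
is not exceptional and has non-constant ratio.  Hence every admissible `k` is at least `4`.
-/

set_option autoImplicit false

namespace Pool.Agent.Results.MP_bcf514_an.AdmissibleAtLeastFour

open Complex

/-- the first function -/
noncomputable def F (z : ℂ) : ℂ := exp (-exp z)
/-- the second function -/
noncomputable def G (z : ℂ) : ℂ := exp (-exp (-z))

theorem hasDerivAt_F (z : ℂ) : HasDerivAt F (-exp z * F z) z := by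
  have h := ((Complex.hasDerivAt_exp z).neg).cexp
  exact h.congr_deriv (by unfold F; simp only [Pi.neg_apply]; ring)

theorem hasDerivAt_G (z : ℂ) : HasDerivAt G (exp (-z) * G z) z := by
  have h := (((hasDerivAt_neg z).cexp).neg).cexp
  exact h.congr_deriv (by unfold G; simp only [Pi.neg_apply]; ring)

theorem deriv_F : deriv F = fun z => -exp z * F z := funext fun z => (hasDerivAt_F z).deriv
theorem deriv_G : deriv G = fun z => exp (-z) * G z := funext fun z => (hasDerivAt_G z).deriv

theorem hasDerivAt_expneg (z : ℂ) : HasDerivAt (fun z : ℂ => exp (-z)) (-exp (-z)) z := by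
  exact ((hasDerivAt_neg z).cexp).congr_deriv (by ring)

theorem F1 : iteratedDeriv 1 F = fun z => -exp z * F z := by
  rw [iteratedDeriv_one]; exact deriv_F
theorem G1 : iteratedDeriv 1 G = fun z => exp (-z) * G z := by
  rw [iteratedDeriv_one]; exact deriv_G

theorem F2 : iteratedDeriv 2 F = fun z => exp z * (exp z - 1) * F z := by
  rw [iteratedDeriv_succ, F1]
  funext z
  have h := ((Complex.hasDerivAt_exp z).neg).mul (hasDerivAt_F z)
  have h' : HasDerivAt (fun z => -exp z * F z) (exp z * (exp z - 1) * F z) z := by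
    exact h.congr_deriv (by simp only [Pi.neg_apply]; ring)
  exact h'.deriv

theorem G2 : iteratedDeriv 2 G = fun z => exp (-z) * (exp (-z) - 1) * G z := by
  rw [iteratedDeriv_succ, G1]
  funext z
  have h := (hasDerivAt_expneg z).mul (hasDerivAt_G z)
  have h' : HasDerivAt (fun z => exp (-z) * G z) (exp (-z) * (exp (-z) - 1) * G z) z := by
    exact h.congr_deriv (by ring)
  exact h'.deriv

theorem F3 : iteratedDeriv 3 F = fun z => -exp z * (exp z * exp z - 3 * exp z + 1) * F z := by
  rw [iteratedDeriv_succ, F2]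
  funext z
  have h := ((Complex.hasDerivAt_exp z).mul ((Complex.hasDerivAt_exp z).sub_const 1)).mul
    (hasDerivAt_F z)
  have h' : HasDerivAt (fun z => exp z * (exp z - 1) * F z)
      (-exp z * (exp z * exp z - 3 * exp z + 1) * F z) z := by
    exact h.congr_deriv (by simp only [Pi.mul_apply]; ring)
  exact h'.deriv

theorem G3 : iteratedDeriv 3 G =
    fun z => exp (-z) * (exp (-z) * exp (-z) - 3 * exp (-z) + 1) * G z := by
  rw [iteratedDeriv_succ, G2]
  funext z
  have h := ((hasDerivAt_expneg z).mul ((hasDerivAt_expneg z).sub_const 1)).mul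
    (hasDerivAt_G z)
  have h' : HasDerivAt (fun z => exp (-z) * (exp (-z) - 1) * G z)
      (exp (-z) * (exp (-z) * exp (-z) - 3 * exp (-z) + 1) * G z) z := by
    exact h.congr_deriv (by simp only [Pi.mul_apply]; ring)
  exact h'.deriv

theorem differentiable_F : Differentiable ℂ F := fun z => (hasDerivAt_F z).differentiableAt
theorem differentiable_G : Differentiable ℂ G := fun z => (hasDerivAt_G z).differentiableAt

theorem F_ne (z : ℂ) : F z ≠ 0 := exp_ne_zero _
theorem G_ne (z : ℂ) : G z ≠ 0 := exp_ne_zero _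

theorem ratio_differentiable : Differentiable ℂ (fun z => F z * (G z)⁻¹) :=
  differentiable_F.mul (differentiable_G.inv G_ne)

theorem ratio_ne (z : ℂ) : F z * (G z)⁻¹ ≠ 0 := mul_ne_zero (F_ne z) (inv_ne_zero (G_ne z))

/-- conditions `(Z_0), …, (Z_3)` -/
theorem cond (n : ℕ) (hn : n ≤ 3) :
    (∃ z : ℂ, iteratedDeriv n G z ≠ 0) ∧
      ∃ h : ℂ → ℂ, Differentiable ℂ h ∧ (∀ z : ℂ, h z ≠ 0) ∧
        ∀ z : ℂ, iteratedDeriv n F z = h z * iteratedDeriv n G z := by
  have hexp : ∀ z : ℂ, exp (-z) = (exp z)⁻¹ := fun z => exp_neg z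
  have hE : ∀ z : ℂ, exp z ≠ 0 := fun z => exp_ne_zero z
  interval_cases n
  · refine ⟨⟨0, by rw [iteratedDeriv_zero]; exact G_ne 0⟩, _, ratio_differentiable, ratio_ne, ?_⟩
    intro z
    rw [iteratedDeriv_zero, iteratedDeriv_zero]
    have := G_ne z
    field_simp
  · refine ⟨⟨0, ?_⟩, fun z => -(exp z * exp z) * (F z * (G z)⁻¹), ?_, ?_, ?_⟩
    · rw [G1]; exact mul_ne_zero (exp_ne_zero _) (G_ne 0)
    · exact ((differentiable_exp.mul differentiable_exp).neg).mul ratio_differentiable
    · intro z
      exact mul_ne_zero (neg_ne_zero.mpr (mul_ne_zero (hE z) (hE z))) (ratio_ne z)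
    · intro z
      rw [F1, G1]
      simp only [hexp]
      have h1 := G_ne z
      have h2 := hE z
      field_simp
  · refine ⟨⟨1, ?_⟩, fun z => -(exp z * exp z * exp z) * (F z * (G z)⁻¹), ?_, ?_, ?_⟩
    · rw [G2]
      refine mul_ne_zero (mul_ne_zero (exp_ne_zero _) ?_) (G_ne 1)
      intro h0
      have h1 : exp (-1 : ℂ) = 1 := by linear_combination h0
      have h2 : Real.exp (-1) = 1 := by
        have : ((Real.exp (-1) : ℝ) : ℂ) = ((1 : ℝ) : ℂ) := by
          rw [Complex.ofReal_exp]; push_cast; exact h1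
        exact_mod_cast this
      have h3 : Real.exp (-1) < 1 := by
        rw [Real.exp_lt_one_iff]; norm_num
      linarith
    · exact (((differentiable_exp.mul differentiable_exp).mul differentiable_exp).neg).mul
        ratio_differentiable
    · intro z
      exact mul_ne_zero (neg_ne_zero.mpr (mul_ne_zero (mul_ne_zero (hE z) (hE z)) (hE z)))
        (ratio_ne z)
    · intro z
      rw [F2, G2]
      simp only [hexp]
      have h1 := G_ne z
      have h2 := hE z
      field_simp
      ring
  · refine ⟨⟨0, ?_⟩, fun z => -(exp z * exp z * exp z * exp z) * (F z * (G z)⁻¹), ?_, ?_, ?_⟩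
    · rw [G3]
      refine mul_ne_zero (mul_ne_zero (exp_ne_zero _) ?_) (G_ne 0)
      simp only [neg_zero, exp_zero]
      norm_num
    · exact ((((differentiable_exp.mul differentiable_exp).mul differentiable_exp).mul
        differentiable_exp).neg).mul ratio_differentiable
    · intro z
      exact mul_ne_zero (neg_ne_zero.mpr (mul_ne_zero (mul_ne_zero (mul_ne_zero (hE z) (hE z))
        (hE z)) (hE z))) (ratio_ne z)
    · intro z
      rw [F3, G3]
      simp only [hexp]
      have h1 := G_ne z
      have h2 := hE z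
      field_simp
      ring

/-- `f / g` is not constant -/
theorem not_proportional : ¬ ∃ c : ℂ, ∀ z : ℂ, F z = c * G z := by
  rintro ⟨c, hc⟩
  -- differentiate
  have hd : ∀ z : ℂ, -exp z * F z = c * (exp (-z) * G z) := by
    intro z
    have h1 := (hasDerivAt_F z).deriv
    have h2 : deriv F z = c * (exp (-z) * G z) := by
      have : F = fun z => c * G z := funext hc
      rw [this]
      exact ((hasDerivAt_G z).const_mul c).deriv
    rw [← h1, h2]
  have h0 := hd 0
  rw [hc 0] at h0
  simp only [neg_zero, exp_zero] at h0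
  have hc0 : c * G 0 = 0 := by linear_combination (-1 / 2 : ℂ) * h0
  rw [← hc 0] at hc0
  exact F_ne 0 hc0

/-- no pair of the form (E1) -/
theorem not_E1 : ¬ ∃ a b c d : ℂ, ∀ z : ℂ, F z = exp (a * z + b) ∧ G z = exp (c * z + d) := by
  rintro ⟨a, b, c, d, h⟩
  have hF : F = fun z => exp (a * z + b) := funext fun z => (h z).1
  have hd : ∀ z : ℂ, -exp z * F z = a * F z := by
    intro z
    have h1 := (hasDerivAt_F z).deriv
    have h2 : deriv F z = a * F z := by
      have h3 : HasDerivAt (fun z => exp (a * z + b)) (exp (a * z + b) * (a * 1)) z :=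
        (((hasDerivAt_id z).const_mul a).add_const b).cexp
      rw [(h z).1]
      rw [hF]
      rw [h3.deriv]
      ring
    rw [← h1, h2]
  have h0 : -exp 0 = a := mul_right_cancel₀ (F_ne 0) (hd 0)
  have h1 : -exp 1 = a := mul_right_cancel₀ (F_ne 1) (hd 1)
  rw [← h0] at h1
  have h2 : exp (1 : ℂ) = 1 := by
    rw [exp_zero] at h1
    linear_combination -h1
  have h3 : Real.exp 1 = 1 := by
    have : ((Real.exp 1 : ℝ) : ℂ) = ((1 : ℝ) : ℂ) := by
      rw [Complex.ofReal_exp]; push_cast; exact h2
    exact_mod_cast this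
  have h4 := Real.add_one_lt_exp (x := 1) one_ne_zero
  linarith

/-- no pair of the form (E2) -/
theorem not_E2 : ¬ ∃ a b A B : ℂ, b ≠ 0 ∧ ∀ z : ℂ,
    F z = A * (exp (a * z) - b) ∧ G z = B * (exp (-(a * z)) - b⁻¹) := by
  rintro ⟨a, b, A, B, -, h⟩
  have hF : F = fun z => A * (exp (a * z) - b) := funext fun z => (h z).1
  have hd : ∀ z : ℂ, deriv F z = A * (exp (a * z) * (a * 1)) := by
    intro z
    rw [hF]
    exact ((((hasDerivAt_id z).const_mul a).cexp).sub_const b |>.const_mul A).deriv
  have hd1 : deriv F = fun z => A * (exp (a * z) * (a * 1)) := funext hd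
  have hd2 : ∀ z : ℂ, deriv (deriv F) z = a * deriv F z := by
    intro z
    rw [hd1]
    have h3 : HasDerivAt (fun z => A * (exp (a * z) * (a * 1)))
        (A * (exp (a * z) * (a * 1) * (a * 1))) z :=
      ((((hasDerivAt_id z).const_mul a).cexp).mul_const (a * 1)).const_mul A
    rw [h3.deriv]
    ring
  have e2 : ∀ z : ℂ, exp z * (exp z - 1) * F z = a * (-exp z * F z) := by
    intro z
    have h1 := hd2 z
    have h2 : deriv (deriv F) z = iteratedDeriv 2 F z := by
      rw [iteratedDeriv_succ, iteratedDeriv_one]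
    rw [h2, F2, deriv_F] at h1
    exact h1
  have e3 : ∀ z : ℂ, exp z - 1 = -a := by
    intro z
    have h1 := e2 z
    have h2 : exp z * F z ≠ 0 := mul_ne_zero (exp_ne_zero z) (F_ne z)
    have h3 : (exp z * F z) * (exp z - 1) = (exp z * F z) * (-a) := by
      linear_combination h1
    exact mul_left_cancel₀ h2 h3
  have h0 := e3 0
  have h1 := e3 1
  rw [← h0] at h1
  have h2 : exp (1 : ℂ) = 1 := by
    rw [exp_zero] at h1
    linear_combination h1
  have h3 : Real.exp 1 = 1 := by
    have : ((Real.exp 1 : ℝ) : ℂ) = ((1 : ℝ) : ℂ) := by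
      rw [Complex.ofReal_exp]; push_cast; exact h2
    exact_mod_cast this
  have h4 := Real.add_one_lt_exp (x := 1) one_ne_zero
  linarith

/-- Every integer `k ≥ 2` for which the conditions `(Z_0), …, (Z_k)` force the ratio to be constant
or the pair to be exceptional satisfies `k ≥ 4`. -/
theorem result : ∀ k : ℕ, 2 ≤ k →
    (∀ f g : ℂ → ℂ, Differentiable ℂ f → Differentiable ℂ g →
        (∀ n : ℕ, n ≤ k →
          (∃ z : ℂ, iteratedDeriv n g z ≠ 0) ∧
          ∃ h : ℂ → ℂ, Differentiable ℂ h ∧ (∀ z : ℂ, h z ≠ 0) ∧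
            ∀ z : ℂ, iteratedDeriv n f z = h z * iteratedDeriv n g z) →
        (∃ c : ℂ, ∀ z : ℂ, f z = c * g z) ∨
        (∃ a b c d : ℂ, ∀ z : ℂ,
            f z = Complex.exp (a * z + b) ∧ g z = Complex.exp (c * z + d)) ∨
        (∃ a b A B : ℂ, b ≠ 0 ∧ ∀ z : ℂ,
            f z = A * (Complex.exp (a * z) - b) ∧
            g z = B * (Complex.exp (-(a * z)) - b⁻¹))) →
    4 ≤ k := by
  intro k _ hk
  by_contra hlt
  have h := hk F G differentiable_F differentiable_G (fun n hn => cond n (by omega))
  rcases h with h | h | h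
  · exact not_proportional h
  · exact not_E1 h
  · exact not_E2 h

end Pool.Agent.Results.MP_bcf514_an.AdmissibleAtLeastFour
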