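import Pool.Agent.BcfFin.MerForms

/-!
Meromorphic functions whose derivatives have the same zeros and poles up to finitely many
exceptions.
-/

set_option autoImplicit false

open Filter Topology

namespace Pool.Agent.Results.MP_bcf514_an.MeromorphicExceptions

/-- `f` and `g` are equal off a closed discrete set, that is, equal as meromorphic functions. -/
def Same (f g : ℂ → ℂ) : Prop := ∀ z₀ : ℂ, ∀ᶠ z in 𝓝[≠] z₀, f z = g z

/-- `f` is a meromorphic function in the plane: a quotient of two entire functions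
(the values of `f` on a closed discrete set are arbitrary). -/
def Mero (f : ℂ → ℂ) : Prop := ∃ a b : ℂ → ℂ, Differentiable ℂ a ∧ Differentiable ℂ b ∧
  (∃ z, b z ≠ 0) ∧ Same f (fun z => a z / b z)

/-- The set of points at which `u` and `v` have different orders (a zero counts with its
multiplicity, a pole with minus its multiplicity). -/
def Exc (u v : ℂ → ℂ) : Set ℂ := {z | meromorphicOrderAt u z ≠ meromorphicOrderAt v z}

/-- None of the derivatives `f`, `f'`, ..., of order at most `14` vanishes identically. -/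
def NonDeg (f : ℂ → ℂ) : Prop := ∀ n ≤ 14, ∃ z, meromorphicOrderAt (iteratedDeriv n f) z ≠ ⊤

/-- The function `(P/Q) exp φ`. -/
noncomputable def rx (P Q : Polynomial ℂ) (φ : ℂ → ℂ) (z : ℂ) : ℂ :=
  P.eval z / Q.eval z * Complex.exp (φ z)

/-- The four families of pairs of meromorphic functions. -/
def Fam (f g : ℂ → ℂ) : Prop :=
  (∃ c : ℂ, Same f (fun z => c * g z)) ∨
  (∃ P Q p S T q : Polynomial ℂ, Q ≠ 0 ∧ T ≠ 0 ∧
    Same f (rx P Q (fun z => p.eval z)) ∧ Same g (rx S T (fun z => q.eval z))) ∨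
  (∃ (A B : ℂ) (P Q p : Polynomial ℂ), P ≠ 0 ∧ Q ≠ 0 ∧
    Same f (fun z => A * (rx P Q (fun z => p.eval z) z - 1)) ∧
    Same g (fun z => B * ((rx P Q (fun z => p.eval z) z)⁻¹ - 1))) ∨
  (∃ (A B : ℂ) (P Q : Polynomial ℂ) (φ : ℂ → ℂ), P ≠ 0 ∧ Q ≠ 0 ∧ Differentiable ℂ φ ∧
    Same f (fun z => A / (rx P Q φ z - 1)) ∧ Same g (fun z => B / ((rx P Q φ z)⁻¹ - 1)))

/-- The three families of pairs of entire functions. -/
def FamE (f g : ℂ → ℂ) : Prop :=
  (∃ c : ℂ, ∀ z, f z = c * g z) ∨
  (∃ P p Q q : Polynomial ℂ, ∀ z, f z = P.eval z * Complex.exp (p.eval z) ∧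
    g z = Q.eval z * Complex.exp (q.eval z)) ∨
  (∃ A B : ℂ, ∃ p : Polynomial ℂ, ∀ z, f z = A * (Complex.exp (p.eval z) - 1) ∧
    g z = B * (Complex.exp (-p.eval z) - 1))

open BcfFin in
theorem rep_of_mero {f : ℂ → ℂ} (hf : Mero f) : ∃ x, BcfFin.Rep x f := by
  obtain ⟨a, b, ha, hb, ⟨z, hz⟩, h⟩ := hf
  refine ⟨_, ⟨a, ha⟩, ⟨b, hb⟩, ?_, rfl, h⟩
  intro h0
  exact hz (congrFun (congrArg Subtype.val h0) z)

theorem ord_entire {u v : ℂ → ℂ} (hu : Differentiable ℂ u) (hv : Differentiable ℂ v) (z : ℂ) :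
    meromorphicOrderAt u z = meromorphicOrderAt v z ↔ analyticOrderAt u z = analyticOrderAt v z := by
  rw [(hu.analyticAt z).meromorphicOrderAt_eq, (hv.analyticAt z).meromorphicOrderAt_eq]
  constructor
  · intro h
    exact WithTop.map_injective (Nat.cast_injective) h
  · intro h
    rw [h]

theorem exc_entire {u v : ℂ → ℂ} (hu : Differentiable ℂ u) (hv : Differentiable ℂ v) :
    Exc u v = {z | analyticOrderAt u z ≠ analyticOrderAt v z} := by
  ext z
  exact not_congr (ord_entire hu hv z)

theorem nonDeg_entire {f : ℂ → ℂ} (h : NonDeg f) :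
    ∀ n ≤ 14, ∃ z, iteratedDeriv n f z ≠ 0 := by
  intro n hn
  obtain ⟨z, hz⟩ := h n hn
  by_contra hcon
  push Not at hcon
  apply hz
  rw [meromorphicOrderAt_eq_top_iff]
  exact Filter.Eventually.of_forall hcon

/-- First part: for meromorphic `f`, `g` whose derivatives of order at most `14` are not
identically zero, the following are equivalent: for every `n ≤ 14` the functions `f^(n)` and
`g^(n)` have the same zeros and poles with multiplicities up to finitely many points; for every
`n ≤ 13` the functions `f^(n+1)/f^(n)` and `g^(n+1)/g^(n)` have the same zeros and poles with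
multiplicities up to finitely many points; the pair `f`, `g` belongs to one of the four families.
Second part: for entire functions `f`, `g` only three families occur, and if there are no
exceptional points at all, then the ratio is constant or the pair is exceptional in the sense
of the problem. -/
theorem result :
    (∀ f g : ℂ → ℂ, Mero f → Mero g → NonDeg f → NonDeg g →
      ((∀ n ≤ 14, (Exc (iteratedDeriv n f) (iteratedDeriv n g)).Finite) ↔ Fam f g) ∧
      ((∀ n ≤ 13, (Exc (fun z => iteratedDeriv (n+1) f z / iteratedDeriv n f z)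
        (fun z => iteratedDeriv (n+1) g z / iteratedDeriv n g z)).Finite) ↔ Fam f g)) ∧
    (∀ f g : ℂ → ℂ, Differentiable ℂ f → Differentiable ℂ g → NonDeg f → NonDeg g →
      ((∀ n ≤ 14, (Exc (iteratedDeriv n f) (iteratedDeriv n g)).Finite) ↔ FamE f g) ∧
      ((∀ n ≤ 14, Exc (iteratedDeriv n f) (iteratedDeriv n g) = ∅) →
        (∃ c : ℂ, ∀ z, f z = c * g z) ∨
        (∃ a b c d : ℂ, ∀ z, f z = Complex.exp (a * z + b) ∧ g z = Complex.exp (c * z + d)) ∨
        (∃ a b A B : ℂ, b ≠ 0 ∧ ∀ z, f z = A * (Complex.exp (a * z) - b) ∧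
          g z = B * (Complex.exp (-(a * z)) - b⁻¹)))) := by
  constructor
  · intro f g hf hg hf0 hg0
    obtain ⟨x, hx⟩ := rep_of_mero hf
    obtain ⟨y, hy⟩ := rep_of_mero hg
    have hx0 : ∀ n ≤ 14, BcfFin.dq x n ≠ 0 := fun n hn => (hx.iter n).ne_zero (hf0 n hn)
    have hy0 : ∀ n ≤ 14, BcfFin.dq y n ≠ 0 := fun n hn => (hy.iter n).ne_zero (hg0 n hn)
    have hF : Fam f g ↔ BcfFin.FamO x y :=
      BcfFin.fam_iff hx hy (hx0 0 (by norm_num)) (hy0 0 (by norm_num))
    have hS : ∀ n ≤ 14, ((Exc (iteratedDeriv n f) (iteratedDeriv n g)).Finite ↔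
        BcfFin.SUP (BcfFin.dq x n) (BcfFin.dq y n)) := fun n hn =>
      BcfFin.sup_iff (hx.iter n) (hy.iter n) (hx0 n hn) (hy0 n hn)
    have hW : ∀ n ≤ 13, ((Exc (fun z => iteratedDeriv (n+1) f z / iteratedDeriv n f z)
        (fun z => iteratedDeriv (n+1) g z / iteratedDeriv n g z)).Finite ↔
        BcfFin.SUP (BcfFin.dq x (n+1) / BcfFin.dq x n) (BcfFin.dq y (n+1) / BcfFin.dq y n)) :=
      fun n hn => BcfFin.sup_iff
        ((hx.iter (n+1)).div (hx.iter n) (hx0 n (by omega)))
        ((hy.iter (n+1)).div (hy.iter n) (hy0 n (by omega)))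
        (div_ne_zero (hx0 (n+1) (by omega)) (hx0 n (by omega)))
        (div_ne_zero (hy0 (n+1) (by omega)) (hy0 n (by omega)))
    have h1 : (∀ n ≤ 13, (Exc (fun z => iteratedDeriv (n+1) f z / iteratedDeriv n f z)
        (fun z => iteratedDeriv (n+1) g z / iteratedDeriv n g z)).Finite) → Fam f g := by
      intro h
      rw [hF]
      exact BcfFin.famO_of_weak hx.mer hy.mer hx0 hy0 (fun n hn => (hW n hn).mp (h n hn))
    have h2 : (∀ n ≤ 14, (Exc (iteratedDeriv n f) (iteratedDeriv n g)).Finite) →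
        (∀ n ≤ 13, (Exc (fun z => iteratedDeriv (n+1) f z / iteratedDeriv n f z)
        (fun z => iteratedDeriv (n+1) g z / iteratedDeriv n g z)).Finite) := by
      intro h n hn
      rw [hW n hn]
      exact ((hS (n+1) (by omega)).mp (h (n+1) (by omega))).div
        ((hS n (by omega)).mp (h n (by omega))) (hx0 n (by omega)) (hy0 n (by omega))
    have h3 : Fam f g → (∀ n ≤ 14, (Exc (iteratedDeriv n f) (iteratedDeriv n g)).Finite) := by
      intro h n hn
      rw [hS n hn]
      exact BcfFin.strong_of_famO (hF.mp h) n (fun m hm => hx0 m (by omega))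
        (fun m hm => hy0 m (by omega))
    exact ⟨⟨fun h => h1 (h2 h), h3⟩, ⟨h1, fun h => h2 (h3 h)⟩⟩
  · intro f g hf hg hf0 hg0
    have hf1 := nonDeg_entire hf0
    have hg1 := nonDeg_entire hg0
    have hE : ∀ n, Exc (iteratedDeriv n f) (iteratedDeriv n g) =
        {z | analyticOrderAt (iteratedDeriv n f) z ≠ analyticOrderAt (iteratedDeriv n g) z} :=
      fun n => exc_entire (BcfFin.iter_diff hf n) (BcfFin.iter_diff hg n)
    have h1 : (∀ n ≤ 14, (Exc (iteratedDeriv n f) (iteratedDeriv n g)).Finite) → FamE f g := by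
      intro h
      refine BcfFin.fam_of_weak hf hg hf1 hg1 (fun n hn => ?_)
      have e1 := h n (by omega)
      have e2 := h (n+1) (by omega)
      rw [hE] at e1 e2
      exact BcfFin.weak_of_strong hf hg e1 e2
    have h3 : FamE f g → (∀ n ≤ 14, (Exc (iteratedDeriv n f) (iteratedDeriv n g)).Finite) := by
      intro h n hn
      rw [hE]
      exact BcfFin.strong_of_fam hf hg h n (fun m hm => hf1 m (by omega))
        (fun m hm => hg1 m (by omega))
    refine ⟨⟨h1, h3⟩, fun h => ?_⟩
    refine BcfFin.exact_of_fam hf hg (fun n hn => hf1 n (by omega)) (fun n hn => hg1 n (by omega))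
      (fun n hn z => ?_) (h1 (fun n hn => by rw [h n hn]; exact Set.finite_empty))
    by_contra hcon
    have h4 : z ∈ Exc (iteratedDeriv n f) (iteratedDeriv n g) := by
      rw [hE]
      exact hcon
    rw [h n (by omega)] at h4
    exact h4

end Pool.Agent.Results.MP_bcf514_an.MeromorphicExceptions
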